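import Pool.Agent.K1H66.FB.Tree

/-!
# Point-finite Borel-additive families of unbounded class need a saturated ideal below the continuum
-/

set_option autoImplicit false

open Cardinal

namespace Pool.Agent.Results.MP_b624cf_lc.SaturatedIdealDichotomy

universe u

/-- An uncountable regular limit cardinal. -/
def WeaklyInaccessible (κ : Cardinal.{u}) : Prop :=
  ℵ₀ < κ ∧ κ.IsRegular ∧ ∀ c < κ, Order.succ c < κ

/-- Some set `V` of size `κ` carries a proper ideal `I` of subsets of `V` which contains all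
singletons, is closed under unions of fewer than `κ` members, and for which every pairwise disjoint
collection of subsets of `V` outside `I` is countable. -/
def CarriesSaturatedIdeal (κ : Cardinal.{u}) : Prop :=
  ∃ (V : Type u) (I : Set (Set V)), #V = κ ∧
    (∀ A ∈ I, ∀ B ⊆ A, B ∈ I) ∧
    (∀ 𝒜 ⊆ I, #𝒜 < κ → ⋃₀ 𝒜 ∈ I) ∧
    (∀ v, {v} ∈ I) ∧ Set.univ ∉ I ∧
    (∀ 𝒜 : Set (Set V), (∀ A ∈ 𝒜, A ∉ I) → 𝒜.PairwiseDisjoint id → 𝒜.Countable)

/-- A point-finite Borel-additive family in a metric space is additive of some countable class,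
or else there is a weakly inaccessible cardinal, at most the continuum and at most the size of the
family, that carries a saturated ideal. -/
theorem result :
    ∀ (X : Type u) [MetricSpace X] (𝒳 : Set (Set X)),
      (∀ x : X, {A : Set X | A ∈ 𝒳 ∧ x ∈ A}.Finite) →
      (∀ 𝒴 ⊆ 𝒳, @MeasurableSet X (borel X) (⋃₀ 𝒴)) →
      ∀ S : Ordinal.{0} → Set (Set X),
        S 1 = {U : Set X | IsOpen U} →
        (∀ α : Ordinal.{0}, 1 < α → α < (Cardinal.aleph 1).ord →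
          S α = {A : Set X | ∃ f : ℕ → Set X, A = (⋃ n, f n) ∧
            ∀ n, ∃ β : Ordinal.{0}, 1 ≤ β ∧ β < α ∧ (f n)ᶜ ∈ S β}) →
        (∃ α : Ordinal.{0}, 1 ≤ α ∧ α < (Cardinal.aleph 1).ord ∧
          ∀ 𝒴 ⊆ 𝒳, ⋃₀ 𝒴 ∈ S α) ∨
        ∃ κ : Cardinal.{u}, WeaklyInaccessible κ ∧ κ ≤ 𝔠 ∧ κ ≤ #𝒳 ∧ CarriesSaturatedIdeal κ := by
  intro X _ 𝒳 pf bor S h1 h2
  by_cases h : ∃ α : Ordinal.{0}, 1 ≤ α ∧ α < (Cardinal.aleph 1).ord ∧ ∀ 𝒴 ⊆ 𝒳, ⋃₀ 𝒴 ∈ S α
  · exact Or.inl h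
  · obtain ⟨κ, k1, k2, k3, k4, k5, k6⟩ :=
      Pool.Agent.K1H66.FB.setform ⟨h1, h2⟩ 𝒳 pf bor h
    exact Or.inr ⟨κ, ⟨lt_of_le_of_lt (Cardinal.aleph0_le_aleph 1) k1, k4, k5⟩, k2, k3, k6⟩

end Pool.Agent.Results.MP_b624cf_lc.SaturatedIdealDichotomy
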